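import Pool.Agent.Work.MP_91103f_lv.Interface

set_option autoImplicit false

namespace Pool.TriLev.helper14

open Pool.TriLev Classical

variable {V : Type} {G : SimpleGraph V} {r : V}

theorem Ch.dist {x c : V} (h : Ch G r x c) : G.dist r c = G.dist r x + 1 := h.2

theorem Ch.ne_root {x c : V} (h : Ch G r x c) : c ≠ r := by
  intro hc
  have h1 := h.2
  rw [hc, SimpleGraph.dist_self] at h1
  omega

theorem phi_spec (hL : LevStr G r) {x : V} (hx : x ≠ r) :
    ∃ c c', c ≠ c' ∧ Ch G r x c ∧ Ch G r x c' ∧ Ch G r c (Phi G r x) ∧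
      Ch G r c' (Phi G r x) := by
  have h : ∃ y, ∃ c c', c ≠ c' ∧ Ch G r x c ∧ Ch G r x c' ∧ Ch G r c y ∧ Ch G r c' y := by
    obtain ⟨c, c', hne, hc, hc', hadj⟩ := hL.adjCh x hx
    obtain ⟨y, hy, hy'⟩ := hL.sib c c' hadj (hc.2.trans hc'.2.symm)
    exact ⟨y, c, c', hne, hc, hc', hy, hy'⟩
  have h1 : Phi G r x = h.choose := by
    rw [Phi, dif_pos h]
  rw [h1]
  exact h.choose_spec

theorem bet_spec (hL : LevStr G r) {x : V} (hx : x ≠ r) (h3 : 3 ≤ nch G r x) :
    Ch G r x (Bet G r x) ∧ ∀ p, Ch G r p (Bet G r x) → p = x := by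
  have h := hL.three x hx h3
  have h1 : Bet G r x = h.choose := by
    rw [Bet, dif_pos h]
  rw [h1]
  exact h.choose_spec

theorem two_children {x c c' d : V} (h2 : nch G r x = 2) (hne : c ≠ c') (hc : Ch G r x c)
    (hc' : Ch G r x c') (hd : Ch G r x d) : d = c ∨ d = c' := by
  rw [nch, Set.ncard_eq_two] at h2
  obtain ⟨a, b, hab, hs⟩ := h2
  have e1 : c ∈ ({a, b} : Set V) := by rw [← hs]; exact hc
  have e2 : c' ∈ ({a, b} : Set V) := by rw [← hs]; exact hc'
  have e3 : d ∈ ({a, b} : Set V) := by rw [← hs]; exact hd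
  rw [Set.mem_insert_iff, Set.mem_singleton_iff] at e1 e2 e3
  rcases e1 with e1 | e1 <;> rcases e2 with e2 | e2 <;> rcases e3 with e3 | e3 <;>
    first
      | exact absurd (e1.trans e2.symm) hne
      | exact Or.inl (e3.trans e1.symm)
      | exact Or.inr (e3.trans e2.symm)

theorem stmt_PHI : Stmt_PHI := by
  intro V G r hL
  refine ⟨fun x hx => phi_spec hL hx, ?_, ?_, ?_⟩
  · intro x x' hx hx' h
    obtain ⟨c, c', hne, hc, hc', hy, hy'⟩ := phi_spec hL hx
    obtain ⟨d, d', hne2, hd, hd', hz, hz'⟩ := phi_spec hL hx'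
    rw [← h] at hz hz'
    by_contra hxx
    have h1 : c = d ∨ c' = d := by
      rcases hL.par2 _ c c' d hy hy' hz with h | h | h
      · exact absurd h hne
      · exact Or.inl h
      · exact Or.inr h
    have h2 : c = d' ∨ c' = d' := by
      rcases hL.par2 _ c c' d' hy hy' hz' with h | h | h
      · exact absurd h hne
      · exact Or.inl h
      · exact Or.inr h
    rcases h1 with h1 | h1 <;> rcases h2 with h2 | h2
    · exact hne2 (h1.symm.trans h2)
    · subst h1 h2
      exact hne (hL.uniq x x' c c' hxx hc hd hc' hd')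
    · subst h1 h2
      exact hne (hL.uniq x x' c c' hxx hc hd' hc' hd)
    · exact hne2 (h1.symm.trans h2)
  · intro x y c c' hx h2 hne hc hc' hy hy'
    obtain ⟨d, d', hne2, hd, hd', hz, hz'⟩ := phi_spec hL hx
    rcases two_children h2 hne hc hc' hd with h1 | h1 <;>
      rcases two_children h2 hne hc hc' hd' with h3 | h3
    · exact absurd (h1.trans h3.symm) hne2
    · subst h1 h3
      exact hL.uniq d d' _ _ hne hz hz' hy hy'
    · subst h1 h3
      exact hL.uniq d' d _ _ hne hz' hz hy hy'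
    · exact absurd (h1.trans h3.symm) hne2
  · intro x hx h3
    obtain ⟨hb, hb'⟩ := bet_spec hL hx h3
    exact ⟨hb, hL.one (Bet G r x) x (Ch.ne_root hb) hb', hb'⟩

end Pool.TriLev.helper14
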