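import Pool.Agent.Work.MP_91103f_lv.Interface

set_option autoImplicit false

namespace Pool.TriLev.helper14

open Pool.TriLev Classical

theorem step {V : Type} (bad : V → Prop) (P N : V → V) (M : ℕ) (x0 : V) (A : ℕ → Finset V)
    (hM : 1 ≤ M)
    (hA : ∀ i, A (i + 1) = (A i).image P ∪ ((A i).filter bad).image N)
    (hinj : ∀ i, ∀ x ∈ A i, ∀ x' ∈ A i, P x = P x' → x = x')
    (hdis : ∀ i, ∀ x ∈ A i, bad x → ∀ x' ∈ A i, P x' ≠ N x)
    (hfib : ∀ i y, (((A i).filter bad).filter (fun x => N x = y)).card ≤ M) (i : ℕ)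
    (c : V → ℕ) (hc : ∀ x ∈ A i, PR bad P N x0 i x (c x))
    (hs : (1 : ℝ) ≤ ∑ x ∈ A i, ((M : ℝ) / (M + 1)) ^ c x) :
    ∃ c' : V → ℕ, (∀ x ∈ A (i + 1), PR bad P N x0 (i + 1) x (c' x)) ∧
      (1 : ℝ) ≤ ∑ x ∈ A (i + 1), ((M : ℝ) / (M + 1)) ^ c' x := by
  have hM0 : (0 : ℝ) < M := by exact_mod_cast hM
  obtain ⟨L, hL⟩ : ∃ L : ℝ, L = (M : ℝ) / (M + 1) := ⟨_, rfl⟩
  have hL0 : 0 < L := by rw [hL]; positivity
  have hL1 : L ≤ 1 := by
    rw [hL, div_le_one (by positivity)]
    linarith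
  have hLM : L * (1 + 1 / M) = 1 := by
    rw [hL]
    field_simp
  rw [← hL] at hs ⊢
  -- the choice of the preimages
  have h1 : ∀ y ∈ A (i + 1), ∃ (d : ℕ), PR bad P N x0 (i + 1) y d ∧
      (∀ x ∈ A i, P x = y → d = c x + (if bad x then 1 else 0)) ∧
      (∀ x ∈ A i, bad x → N x = y → d ≤ c x + 1) := by
    intro y hy
    rw [hA, Finset.mem_union, Finset.mem_image, Finset.mem_image] at hy
    rcases hy with ⟨x, hx, hxy⟩ | ⟨x, hx, hxy⟩
    · refine ⟨c x + (if bad x then 1 else 0), ?_, ?_, ?_⟩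
      · rw [← hxy]
        split_ifs with hb
        · exact PR.bad1 i x (c x) (hc x hx) hb
        · exact PR.good i x (c x) (hc x hx) hb
      · intro x' hx' h
        rw [hinj i x hx x' hx' (hxy.trans h.symm)]
      · intro x' hx' hb' h
        exact absurd (hxy.trans h.symm) (hdis i x' hx' hb' x hx)
    · -- minimal
      have hne : (((A i).filter bad).filter (fun x => N x = y)).Nonempty :=
        ⟨x, Finset.mem_filter.2 ⟨hx, hxy⟩⟩
      obtain ⟨x1, hx1, hmin⟩ := Finset.exists_min_image _ c hne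
      rw [Finset.mem_filter, Finset.mem_filter] at hx1
      refine ⟨c x1 + 1, ?_, ?_, ?_⟩
      · rw [← hx1.2]
        exact PR.bad2 i x1 (c x1) (hc x1 hx1.1.1) hx1.1.2
      · intro x' hx' h
        exact absurd (h.trans hx1.2.symm) (hdis i x1 hx1.1.1 hx1.1.2 x' hx')
      · intro x' hx' hb' h
        exact Nat.add_le_add_right
          (hmin x' (Finset.mem_filter.2 ⟨Finset.mem_filter.2 ⟨hx', hb'⟩, h⟩)) 1
  choose! c' hc1 hc2 hc3 using h1
  refine ⟨c', hc1, hs.trans ?_⟩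
  have hdisj : Disjoint ((A i).image P) (((A i).filter bad).image N) := by
    rw [Finset.disjoint_left]
    intro y hy hy'
    rw [Finset.mem_image] at hy hy'
    obtain ⟨x', hx', h'⟩ := hy
    obtain ⟨x, hx, h⟩ := hy'
    rw [Finset.mem_filter] at hx
    exact hdis i x hx.1 hx.2 x' hx' (h'.trans h.symm)
  have hPsub : ∀ y ∈ (A i).image P, y ∈ A (i + 1) := fun y hy => by
    rw [hA]; exact Finset.mem_union_left _ hy
  have hNsub : ∀ y ∈ ((A i).filter bad).image N, y ∈ A (i + 1) := fun y hy => by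
    rw [hA]; exact Finset.mem_union_right _ hy
  have e1 : ∑ y ∈ A (i + 1), L ^ c' y = ∑ y ∈ (A i).image P, L ^ c' y +
      ∑ y ∈ ((A i).filter bad).image N, L ^ c' y := by
    rw [hA, Finset.sum_union hdisj]
  have e2 : ∑ y ∈ (A i).image P, L ^ c' y =
      ∑ x ∈ A i, L ^ (c x + (if bad x then 1 else 0)) := by
    rw [Finset.sum_image (fun x hx x' hx' h => hinj i x hx x' hx' h)]
    refine Finset.sum_congr rfl (fun x hx => ?_)
    rw [hc2 (P x) (hPsub _ (Finset.mem_image_of_mem _ hx)) x hx rfl]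
  have e3 : (1 / (M : ℝ)) * ∑ x ∈ (A i).filter bad, L ^ (c x + 1) ≤
      ∑ y ∈ ((A i).filter bad).image N, L ^ c' y := by
    rw [← Finset.sum_fiberwise_of_maps_to (s := (A i).filter bad)
      (t := ((A i).filter bad).image N) (g := N) (fun x hx => Finset.mem_image_of_mem _ hx)
      (fun x => L ^ (c x + 1)), Finset.mul_sum]
    refine Finset.sum_le_sum (fun y hy => ?_)
    have f1 : ∑ x ∈ ((A i).filter bad).filter (fun x => N x = y), L ^ (c x + 1) ≤
        ∑ _x ∈ ((A i).filter bad).filter (fun x => N x = y), L ^ c' y := by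
      refine Finset.sum_le_sum (fun x hx => ?_)
      rw [Finset.mem_filter, Finset.mem_filter] at hx
      exact pow_le_pow_of_le_one hL0.le hL1 (hc3 y (hNsub y hy) x hx.1.1 hx.1.2 hx.2)
    rw [Finset.sum_const, nsmul_eq_mul] at f1
    have f2 : ((((A i).filter bad).filter (fun x => N x = y)).card : ℝ) ≤ M := by
      exact_mod_cast hfib i y
    have f3 := f1.trans (mul_le_mul_of_nonneg_right f2 (pow_nonneg hL0.le (c' y)))
    rw [one_div, inv_mul_le_iff₀ hM0]
    exact f3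
  have e4 : ∑ x ∈ A i, L ^ c x = ∑ x ∈ A i, L ^ (c x + (if bad x then 1 else 0)) +
      (1 / (M : ℝ)) * ∑ x ∈ (A i).filter bad, L ^ (c x + 1) := by
    rw [Finset.sum_filter, Finset.mul_sum, ← Finset.sum_add_distrib]
    refine Finset.sum_congr rfl (fun x _ => ?_)
    split_ifs with hb
    · have : L ^ c x = L ^ c x * (L * (1 + 1 / M)) := by rw [hLM, mul_one]
      rw [this, pow_succ]
      ring
    · simp
  rw [e1, e2, e4]
  linarith

theorem stmt_POT : Stmt_POT := by
  intro V bad P N M x0 A hM hA0 hA hinj hdis hfib i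
  have hM0 : (0 : ℝ) < M := by exact_mod_cast hM
  have h1 : ∀ i, ∃ c : V → ℕ, (∀ x ∈ A i, PR bad P N x0 i x (c x)) ∧
      (1 : ℝ) ≤ ∑ x ∈ A i, ((M : ℝ) / (M + 1)) ^ c x := by
    intro i
    induction i with
    | zero =>
      refine ⟨fun _ => 0, ?_, ?_⟩
      · intro x hx
        rw [hA0, Finset.mem_singleton] at hx
        rw [hx]
        exact PR.zero
      · rw [hA0]
        simp
    | succ i ih =>
      obtain ⟨c, hc, hs⟩ := ih
      exact step bad P N M x0 A hM hA hinj hdis hfib i c hc hs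
  obtain ⟨c, hc, hs⟩ := h1 i
  by_contra hcon
  push Not at hcon
  have h2 : ∀ x ∈ A i, ((A i).card : ℝ) * ((M : ℝ) / (M + 1)) ^ c x < 1 := by
    intro x hx
    have h3 := hcon x (c x) (hc x hx)
    have h4 : ((A i).card : ℝ) * (M : ℝ) ^ c x < ((M : ℝ) + 1) ^ c x := by exact_mod_cast h3
    rw [div_pow, mul_div_assoc', div_lt_one (by positivity)]
    exact h4
  have hne : (A i).Nonempty := by
    rw [Finset.nonempty_iff_ne_empty]
    intro h
    rw [h, Finset.sum_empty] at hs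
    linarith
  have hcard : (0 : ℝ) < (A i).card := by exact_mod_cast Finset.card_pos.2 hne
  have h5 : ((A i).card : ℝ) * ∑ x ∈ A i, ((M : ℝ) / (M + 1)) ^ c x < (A i).card := by
    rw [Finset.mul_sum]
    calc ∑ x ∈ A i, ((A i).card : ℝ) * ((M : ℝ) / (M + 1)) ^ c x < ∑ _x ∈ A i, (1 : ℝ) :=
          Finset.sum_lt_sum_of_nonempty hne h2
      _ = (A i).card := by simp
  have h6 : ((A i).card : ℝ) * 1 ≤ ((A i).card : ℝ) * ∑ x ∈ A i, ((M : ℝ) / (M + 1)) ^ c x :=
    mul_le_mul_of_nonneg_left hs hcard.le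
  linarith

end Pool.TriLev.helper14
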